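import Mathlib
import Pool.Agent.Helper198.Eqs.Main3

set_option autoImplicit false

open CategoryTheory AlgebraicGeometry
open Pool.Agent.Helper226 Pool.Agent.Helper198.Eqs

universe u

namespace Pool.Agent.Results.MP_41a257_ag.SingularStratum

/-- Let `k` be an algebraically closed field of characteristic `2`, `S` the affine plane over `k`
and `I₀ = (y² - x⁵, x⁴ y, x⁶)`. Then `I₀` is complete, of colength `10`, and the equisingular
stratum `E(I₀)` in `Hilb¹⁰(S)` is singular at the point `[I₀]`: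

* near `[I₀]`, the set `E(I₀)` is locally closed, so that there is an open neighbourhood `U` of
  `[I₀]` and a reduced subscheme `j : Z ⟶ Hilb¹⁰(S)`, contained in `U`, whose `k`-points are the
  complete ideals in `U` which are equisingular to `I₀`;
* if `U` is any open neighbourhood of `[I₀]` (for instance the whole of `Hilb¹⁰(S)`) and `Z` is any
  such reduced subscheme, then no open neighbourhood of the point `[I₀]` of `Z` is smooth over
  `k`. -/
theorem result (k : Type u) [Field k] [IsAlgClosed k] [CharP k 2] :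
    Nonempty (HilbertScheme k (Pl k) 10) ∧ IsComplete (baseIdeal k) ∧
    ∀ 𝓗 : HilbertScheme k (Pl k) 10, ∃ f₀ : PointsOver k 𝓗.H 𝓗.s k,
      𝓗.idealOf f₀ = baseIdeal k ∧
      (∃ (U : 𝓗.H.Opens) (Z : Scheme.{u}) (j : Z ⟶ 𝓗.H),
        pt 𝓗 f₀ ∈ U ∧ IsStratumOn 𝓗 (baseIdeal k) U j) ∧
      ∀ (U : 𝓗.H.Opens) (Z : Scheme.{u}) (j : Z ⟶ 𝓗.H),
        pt 𝓗 f₀ ∈ U → IsStratumOn 𝓗 (baseIdeal k) U j →
        ∃ z : Z, j z = pt 𝓗 f₀ ∧ ∀ W : Z.Opens, z ∈ W → ¬ Smooth (W.ι ≫ j ≫ 𝓗.s) := by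
  obtain ⟨φ₀, hφ₀⟩ := exists_base k
  have hP : Pst (baseIdeal k) := by
    rw [baseIdeal_eq]
    exact Pst_KK _ _ _ _ _ _ one_ne_zero
  refine ⟨⟨H0 k⟩, hP.1, fun 𝓗 => ⟨kf 𝓗 φ₀, ?_, ?_, ?_⟩⟩
  · rw [idealOf_kf, hφ₀]
  · exact exists_stratum 𝓗 _ (by rw [idealOf_kf, hφ₀])
  · intro U Z j hU hZ
    have hI : 𝓗.idealOf (kf 𝓗 φ₀) = baseIdeal k := by rw [idealOf_kf, hφ₀]
    obtain ⟨z, hz⟩ := (hZ.2.2.2 _ hU).2 (by rw [hI]; exact hP)
    exact ⟨z, hz, fun W hW => stratum_not_smooth 𝓗 U j hZ _ hI hU z hz W hW⟩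

end Pool.Agent.Results.MP_41a257_ag.SingularStratum
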